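import Mathlib

/-!
# Strings of prime pairs `(p, p + h)` in one residue class, on average over a short range of `h`:
definitions
-/

set_option autoImplicit false

open Finset

open scoped Classical

namespace Pool.Agent.Helper41.PS

/-- `p` and `p + h` are primes -/
def T (h p : ℕ) : Prop := p.Prime ∧ (p + h).Prime

/-- `p` is in `T h`, and for some `y ≤ p + R` all elements of `T h` in `[p, y]` are in the class `a`
modulo `q`, and there are at least `m + 1` of them -/
def Str (m q : ℕ) (R : ℝ) (a h p : ℕ) : Prop :=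
  T h p ∧ ∃ y : ℕ, (y : ℝ) ≤ p + R ∧ (∀ t ∈ Icc p y, T h t → t ≡ a [MOD q]) ∧
    m + 1 ≤ ((Icc p y).filter (fun t => T h t)).card

/-- the number of the `n ≤ x` with `Str` -/
noncomputable def NS (m q : ℕ) (R : ℝ) (a h x : ℕ) : ℝ :=
  (((Icc 1 x).filter (fun n => Str m q R a h n)).card : ℝ)

/-- the `m`-element subsets of `[1, L]` -/
def DD (m L : ℕ) : Finset (Finset ℕ) := powersetCard m (Icc 1 L)

/-- all `n + d`, `d ∈ D ∪ {0}`, are primes in the class `a` modulo `q` -/
def PD (q a : ℕ) (D : Finset ℕ) (n : ℕ) : Prop :=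
  ∀ d ∈ insert 0 D, (n + d).Prime ∧ n + d ≡ a [MOD q]

/-- the indicator function of `PD` -/
noncomputable def ff (q a : ℕ) (D : Finset ℕ) (n : ℕ) : ℝ := if PD q a D n then 1 else 0

/-- the number of the pairs `(n, D)` with `PD`, `n ≤ x`, `D ⊆ [1, L]`, `#D = m` -/
noncomputable def MM (m q x L a : ℕ) : ℝ := ∑ D ∈ DD m L, ∑ n ∈ Icc 1 x, ff q a D n

/-- the number of the pairs `(n, D)` with `PD` for `n` and for `n + h` -/
noncomputable def SS (m q x L a h : ℕ) : ℝ :=
  ∑ D ∈ DD m L, ∑ n ∈ Icc 1 x, ff q a D n * ff q a D (n + h)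

/-- `D ∪ {0}` and its translate by `h` -/
def EE (D : Finset ℕ) (h : ℕ) : Finset ℕ := insert 0 D ∪ (insert 0 D).image (fun d => d + h)

/-- `D ∪ {0}` and its translate by `h` are disjoint -/
def ND (D : Finset ℕ) (h : ℕ) : Prop := Disjoint (insert 0 D) ((insert 0 D).image (fun d => d + h))

/-- the number of the `n ≤ x` such that all `n + e`, `e ∈ E`, are primes -/
noncomputable def NN (x : ℕ) (E : Finset ℕ) : ℝ :=
  (((Icc 1 x).filter (fun n => ∀ e ∈ E, (n + e).Prime)).card : ℝ)

/-- the number of the pairs `(n, D)` such that `n + D ∪ {0}` and its translate by `h` consist of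
primes and are disjoint -/
noncomputable def UU (m x L h : ℕ) : ℝ :=
  ∑ D ∈ (DD m L).filter (fun D => ND D h), NN x (EE D h)

/-- the expected size of `UU m x L h` -/
noncomputable def gs (m x L : ℕ) : ℝ := x * (L : ℝ) ^ m / Real.log x ^ (2 * m + 2)

/-- `∏_{p ∣ t} (1 + K / p)` -/
noncomputable def ww (K t : ℕ) : ℝ := ∏ p ∈ t.primeFactors, (1 + (K : ℝ) / p)

/-- the product of `ww K` over the differences of `E` -/
noncomputable def WW (K : ℕ) (E : Finset ℕ) : ℝ :=
  ∏ e ∈ E, ∏ f ∈ E.filter (fun f => e < f), ww K (f - e)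

end Pool.Agent.Helper41.PS
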