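import Pool.Agent.Helper41.PS.Defs

/-!
# Strings of prime pairs `(p, p + h)` in one residue class, on average over `h`: statements

MAIN THEOREM (`StmtFIN`).  Let `m, q ≥ 1` and let `A` be a nonempty set of classes prime to `q`.  There
is `C` such that for every `ε > 0` there are `c > 0` and `x0` such that for all `x ≥ x0` and all `H` with
`C (log x)^((m+1) #A) ≤ H ≤ x`: for at least `c H` multiples `h ≤ H` of `q` the following holds for ALL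
`a ∈ A`.  The number of the `p ≤ x` in `T h` (`p`, `p + h` primes) such that `p` and the next `m` elements
of `T h` are in the class `a` modulo `q` and in `[p, p + ε log² x]` is at least `c x/log² x` and at least
`c #{p ≤ x : p ∈ T h}`.

PROOF.  Let `L = ⌊λ log² x⌋`.  (1) By convexity there are `≥ c x L^m/(log x)^(m+1)` pairs `(n, D)`,
`D ⊆ [1, L]`, `#D = m`, with `n + D ∪ {0}` primes in the class `a` (`MA`), and there are `≤ L^m` sets `D`;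
so by Cauchy-Schwarz along the lines of direction `(1, .., 1)` (`VDC`, `LOW`)
`∑_{h < H} ∏_{a ∈ A} SS a h ≥ c H gs^#A`, `gs = x L^m/(log x)^(2m+2)`.  (2) By an upper bound sieve all
moments of `UU m x L h` over `h ≤ N` are `≤ C (N + L) gs^J` (`MOM`).  (3) `SS a h` is at most the number of
strings plus `(m + 1) UU (m + 1) x L h` (`GD`), and the last number is smaller by the factor
`L/log² x ≤ λ` on average.  (4) Paley-Zygmund (`PZ`).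
-/

set_option autoImplicit false

open Finset

open scoped Classical

namespace Pool.Agent.Helper41.PS

/-! ## Part I: primes in one class, convexity -/

/-- PACKET PNT (primes in a fixed class; 0.4 h).
Proof.  `Pool/Agent/Helper57/TW/Main.lean`, the theorem with statement `Pool.Agent.Helper57.TW.StmtSW`
(`q0 = q`, `N = 1`, `B = 2`, `d = 1`): `th x q a ≥ th x 1 0/φ(q) - x/(log x)^2`.
`Pool.Agent.Helper61.CG.a1` (`j = 0`): `c (x/log x) ≤ ∑_{x/32 < n ≤ x} pw x n ≤ th x 1 0`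
(`pw ≥ 0`, `tw ≥ 0` by definition as a `max 0`, `log n ≥ 0`).  Finally `0 ≤ pw x n ≤ 1` for `n ≤ x`
(`tw x n ≤ 1`), and `pw x n = 0` if `n` is not a prime, so `th x q a` is at most the number on the
right.  (`th`, `pw`, `tw`: `Pool/Agent/Helper88/CG/Goals.lean`.) -/
def StmtPNT : Prop := ∀ q a : ℕ, 1 ≤ q → Nat.Coprime a q → ∃ c : ℝ, 0 < c ∧ ∃ x0 : ℕ,
  ∀ x : ℕ, x0 ≤ x → c * (x / Real.log x) ≤
    (((Icc 1 x).filter (fun p => p.Prime ∧ p ≡ a [MOD q])).card : ℝ)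

/-- PACKET MA (convexity; may assume PNT; 1.2 h).
Proof.  `r = m + 1`, `P` = primes `≡ a (q)`.  Cells `I_i = (i L, (i + 1) L] ∩ [1, x]`, `i ∈ range K`,
`K = x/L + 1 ≤ 2x/L` (real division); `N_i = #(P ∩ I_i)`, `∑ N_i = #(P ∩ [1, x]) ≥ c0 x/log x` (PNT).
For every `r`-element set `F ⊆ P ∩ I_i` the pair `n = min F`, `D = (F \ {n}) - n` is counted in `MM`
(differences of two elements of a cell are `< L`), and `F` is determined by `(n, D)`; so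
`MM ≥ ∑_i C(N_i, r)`.  `C(N, r) ≥ (N/r)^r - 1` for all `N` (`N < r`: the right side is negative or `0`;
`N ≥ r`: `Nat.pow_le_choose` or `(N - j)/(r - j) ≥ N/r`).  Power mean
(`inner_le_nnorm_mul_nnorm`-type or `Finset.inner_mul_le_norm_mul_norm`; in Mathlib
`Finset.pow_arith_mean_le_arith_mean_pow` / `inner_pow_le`...): `∑ N_i^r ≥ (∑ N_i)^r/K^(r-1)`.  Hence
`MM ≥ (∑ N_i)^r/(r^r K^(r-1)) - K`, and `K ≤` half of the first term if `L ≥ K0 log x` with a large `K0`: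
`(∑ N_i)/K ≥ c0 (x/log x) L/(2x) = c0 L/(2 log x) ≥ 2 r`.  So
`MM ≥ (1/2) (c0 x/log x)^r/(r^r (2x/L)^(r-1)) = c x L^m/(log x)^(m+1)`. -/
def StmtMA : Prop := ∀ m q a : ℕ, 1 ≤ q → Nat.Coprime a q → ∃ c K : ℝ, 0 < c ∧ 1 ≤ K ∧ ∃ x0 : ℕ,
  ∀ x L : ℕ, x0 ≤ x → K * Real.log x ≤ L → L ≤ x →
  c * (x * (L : ℝ) ^ m) ≤ Real.log x ^ (m + 1) * MM m q x L a

/-- PACKET VDC (van der Corput on the lines of direction `(1, .., 1)`; 1.2 h).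
Proof.  `F' a n = F a n` if `1 ≤ n ≤ x`, else `0`.  For `u : A → [1, 2x]` (`Fintype.piFinset`) let
`G u = ∑_{j < H} ∏_{a} F' a (u a - j)` (natural subtraction: `F' a 0 = 0`).  By `Finset.prod_univ_sum`
`∑_u G u = ∑_{j < H} ∏_a ∑_{u ∈ [1, 2x]} F' a (u - j) = H ∏_a ∑_{n ≤ x} F a n` (`j < H ≤ x`, so `u - j` runs
through all of `[1, x]`).  Cauchy-Schwarz: `(H ∏_a ∑ F)^2 ≤ (2x)^#A ∑_u (G u)^2`, and
`∑_u (G u)^2 = ∑_{j, j' < H} ∏_a ∑_u F' a (u - j) F' a (u - j')`; for `j = j'` the factor is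
`∑_{n ≤ x} F a n ^ 2`, for `j < j'`, `h = j' - j`, it is `∑_n F' a (n + h) F' a n ≤ ∑_{n ≤ x} F a n F a (n + h)`.
There are `H - h ≤ H` pairs with `j' - j = h`.  Divide by `H`.  (Use the subtype of `A`, or
`Finset.prod_coe_sort`.) -/
def StmtVDC : Prop := ∀ (A : Finset ℕ) (F : ℕ → ℕ → ℝ) (x H : ℕ), 1 ≤ H → H ≤ x →
  (∀ a n, 0 ≤ F a n) →
  (H : ℝ) * ∏ a ∈ A, (∑ n ∈ Icc 1 x, F a n) ^ 2 ≤
    (2 * (x : ℝ)) ^ A.card * (∏ a ∈ A, ∑ n ∈ Icc 1 x, F a n ^ 2 +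
      2 * ∑ h ∈ Ico 1 H, ∏ a ∈ A, ∑ n ∈ Icc 1 x, F a n * F a (n + h))

/-- PACKET LOW (may assume VDC; 0.8 h).
Proof.  For `w : A → DD m L` apply VDC to `F a n = ff q a (w a) n` and sum over `w`
(`Fintype.piFinset (fun _ => DD m L)`, `Finset.prod_univ_sum`): left side
`H ∏_a ∑_{D ∈ DD} (∑_n ff q a D n)^2 ≥ H ∏_a (MM a)^2/#DD` (`inner_mul_le_norm_mul_norm` /
`sq_sum_le_card_mul_sum_sq`), `#DD = C(L, m) ≤ L^m` (`Nat.choose_le_pow`...), right side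
`(2x)^#A (∏_a MM a + 2 ∑_h ∏_a SS a h)` since `ff^2 = ff`.  If `#DD = 0` (`L < m`) both sides are fine
(`MM = 0`); `A = ∅` gives `H ≤ 1 + 2 (H - 1)`. -/
def StmtLOW : Prop := ∀ (m q x L H : ℕ) (A : Finset ℕ), 1 ≤ H → H ≤ x → 1 ≤ L →
  (H : ℝ) * ∏ a ∈ A, MM m q x L a ^ 2 ≤
    (2 * (x : ℝ) * (L : ℝ) ^ m) ^ A.card * (∏ a ∈ A, MM m q x L a +
      2 * ∑ h ∈ Ico 1 H, ∏ a ∈ A, SS m q x L a h)

/-- PACKET SM (the `h ≤ L`; 0.9 h).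
Proof.  `SS a h = S' + S''`, `S'` the sum over the `D` with `ND D h`, so `S' ≤ UU m x L h` (`ff ff = 1` implies
that all `n + e`, `e ∈ EE D h`, are primes), `S''` the sum over the other `D`, `S' + S'' ≤ MM a` (`ff ≤ 1`).
`∏_a (s_a + t_a) ≤ U^#A + ∑_{a ∈ A} t_a ∏_{b ≠ a} M_b` if `0 ≤ s_a ≤ U`, `0 ≤ t_a`, `s_a + t_a ≤ M_a`
(induction on `A`).  `∑_{h ∈ [1, L]} t_a(h) ≤ (m+1)^2 MM a`: for given `D` the `h ≥ 1` with `¬ ND D h` are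
differences `d - d'` of elements of `D ∪ {0}`, at most `(m+1)^2` of them. -/
def StmtSM : Prop := ∀ (m q x L : ℕ) (A : Finset ℕ),
  ∑ h ∈ Icc 1 L, ∏ a ∈ A, SS m q x L a h ≤
    (A.card : ℝ) * ((m : ℝ) + 1) ^ 2 * ∏ a ∈ A, MM m q x L a +
      ∑ h ∈ Icc 1 L, UU m x L h ^ A.card

/-! ## Part II: the upper bound sieve -/

/-- PACKET SV1 (Brun-Hooley upper bound with `k` classes for the primes of a set `P`; 1.5 h).
Proof.  As `Pool/Agent/Helper96/TW/PC.lean` (copy it; imports `Pool.Agent.Helper10.TU.BH`,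
`Pool.Agent.Helper57.TU.BM`), only the upper bound.  Choose `E` with `k^2 ≤ E`, `E ≥ E0`, `W0 = E^2` (and
`≥ exp E`, `≥ 2k`..), `D0 = E/16 + 4` or so.  For `n` let `S(n) = {p ∈ P : n mod p ∈ cl p} ⊆ pr W0 z`.
`TU.StmtBH` (`bh`): `[S(n) = ∅] ≤ ∏_t Ut = ∑_{A ∈ AA, A ⊆ S(n)} (-1)^#A`.  Sum over `n ≤ x`: for `A ⊆ P` the number of
the `n ≤ x` with `A ⊆ S(n)` is `x k^#A/∏A + θ k^#A`; for `A ⊄ P` it is `0`.  Errors as in PC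
(`sum_pow_le`).  Main term: `∑_{A ∈ AA, A ⊆ P} (-1)^#A ∏_{p ∈ A} k/p = ∏_t tr(k/p, P ∩ Pt, rt + 1)`
(`Pool.Agent.Helper57.TU.sum_biUnion_powerset` with the sets `P ∩ Pt W0 z t`), and by
`Pool.Agent.Helper57.TU.bonferroni`, `es_le`, `Lbound` (as in the proof of `StmtBM`, same file)
`tr ≤ π_t (1 + ε_t)`, `π_t = ∏_{p ∈ P ∩ Pt} (1 - k/p) ≥ exp(-2 k L_t)`, `∑ ε_t ≤ 1`.  Finally the errors
are at most `x ∏_{p ∈ P} (1 - k/p)` because `∏_{p ∈ P} (1 - k/p) ≥ gg W0 z k ≥ z^(-2k)` or so, and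
`z^D0 ≤ x`. -/
def StmtSV1 : Prop := ∀ k : ℕ, ∃ (W0 D0 : ℕ) (C : ℝ), 2 * k + 2 ≤ W0 ∧ 1 ≤ D0 ∧ 1 ≤ C ∧
  ∀ (z x : ℕ) (P : Finset ℕ) (cl : ℕ → Finset ℕ), W0 ≤ z → z ^ D0 ≤ x →
  (∀ p ∈ P, p.Prime ∧ W0 < p ∧ p ≤ z ∧ (cl p).card = k ∧ ∀ c ∈ cl p, c < p) →
  (((Icc 1 x).filter (fun n => ∀ p ∈ P, n % p ∉ cl p)).card : ℝ) ≤
    C * (x * ∏ p ∈ P, (1 - (k : ℝ) / p))

/-- PACKET SV2 (prime tuples; may assume SV1; 1.2 h).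
Proof.  `z = ⌊x^(1/(D0+1))⌋` or any `z` with `z^D0 ≤ x`, `z^2 ≤ x`, `log z ≥ c log x`.  `P` = the primes of `(W0, z]`
which divide none of the differences `f - e`, `e < f` in `E`; for `p ∈ P` the classes `-e` modulo `p`, `e ∈ E`,
are `k` different classes (`cl p = E.image (fun e => (p - e % p) % p)`).  If `n > z` and all `n + e` are primes
then `n % p ∉ cl p` for `p ∈ P`.  So the number is at most `z + C x ∏_{p ∈ P} (1 - k/p)`.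
`∏_{p ∈ P} (1 - k/p) ≤ ∏_{W0 < p ≤ z} (1 - k/p) ∏_{p > W0, p ∣ some f - e} (1 - k/p)⁻¹`,
`(1 - k/p)⁻¹ ≤ 1 + 2k/p` for `p ≥ 2k`, and the last product is at most `WW (2k) E` (every such `p` is a prime
factor of some difference; all factors of `WW` are `≥ 1`).
`∏_{W0 < p ≤ z} (1 - k/p) ≤ (om W0 z)^k ≤ C (log z)^(-k)` (`(1 - 1/p)^k ≥ 1 - k/p`; `om`, `pr` of
`Pool/Agent/Helper88/PP/Goals.lean`, upper bound for `om` = the Mertens bound used in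
`Pool/Agent/Helper76/TW/Goals.lean`, packet JP: `Pool.Agent.Helper37.PP.mp`; or
`Pool.Agent.Helper69.LG.me`).  `z ≤ √x ≤ x/(log x)^k` and `WW ≥ 1`. -/
def StmtSV2 : Prop := ∀ k : ℕ, ∃ C : ℝ, 1 ≤ C ∧ ∃ x0 : ℕ, ∀ x : ℕ, x0 ≤ x →
  ∀ E : Finset ℕ, E.card = k → NN x E ≤ C * (x / Real.log x ^ k) * WW (2 * k) E

/-- PACKET AV1 (averages of `ww`; 0.8 h).
Proof.  First part: `(1 + K u)^J ≤ 1 + (K + 1)^J u` for `0 ≤ u ≤ 1` (expand: every term `C(J,i) K^i u^i`,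
`i ≥ 1`, is `≤ C(J,i) K^i u`), `u = 1/p`.  Second part: `ww K t = ∑_{d ∣ rad t} K^ω(d)/d`
(`Finset.prod_one_add`, sums over the subsets `B` of `t.primeFactors` of `∏_{p ∈ B} K/p`).  Sum over
`t ≤ N`: a set `B` of primes `≤ N` is contained in `t.primeFactors` iff `∏ B ∣ t`, for at most `N/∏ B` of the
`t`; so the sum is `≤ N ∑_{B ⊆ primes ≤ N} ∏_{p ∈ B} K/p^2 = N ∏_{p ≤ N} (1 + K/p^2) ≤ N exp(2K)`
(`∑_{n ≥ 1} 1/n^2 ≤ 2`). -/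
def StmtAV1 : Prop := (∀ K J t : ℕ, ww K t ^ J ≤ ww ((K + 1) ^ J) t) ∧
  ∀ K : ℕ, ∃ C : ℝ, 1 ≤ C ∧ ∀ N : ℕ, ∑ t ∈ Icc 1 N, ww K t ≤ C * N

/-- PACKET AV2 (the average of `WW`; may assume AV1; 1.5 h).
Proof.  `E = EE D h` has `2 (m + 1)` elements, so `P2 = (m+1)(2m+1)` pairs `e < f`; by AM-GM
(`Real.inner_le_nnorm_mul_nnorm` not needed: a product of `P2` numbers `≥ 0` is at most the sum of their
`P2`-th powers) and AV1 `WW K E ^ J ≤ ∑_{e < f in E} ww K' (f - e)`, `K' = (K + 1)^(J P2)`.  The pairs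
`e < f` in `EE D h` are: both in `D ∪ {0}` or both in its translate (the same differences `d' - d`,
`d < d'` in `D ∪ {0}`), or one in each: difference `|h + d - d'|`, `d, d' ∈ D ∪ {0}`, not `0` by `ND`.
(i) `∑_{h ≤ N} ∑_D ∑_{d, d'} ww K' |h + d - d'|`: for fixed `D, d, d'` the numbers `|h + d - d'|`, `h ∈ [1, N]`, take every
value of `[1, N + L]` at most twice: `≤ 2 C (N + L)`; there are `#DD (m+1)^2 ≤ (m+1)^2 L^m` triples.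
(ii) `∑_D ∑_{d < d' in D ∪ {0}} ww K' (d' - d)`: for `0 ≤ d < d' ≤ L` the number of the `D` which contain the nonzero
ones among `d, d'` is `≤ L^(m-1)` if `d = 0`, `≤ L^(m-2)` if `d > 0` (`0` if `m = 1`), and
`∑_{d'} ww K' d' ≤ C L`, `∑_{d < d'} ww K' (d' - d) ≤ (L + 1) C L ≤ 2 C L^2`; total `≤ C' L^m`, times `N`.
(An alternative for the counting: `∑_{D ∈ DD m L} g(D) ≤ ∑_{v : Fin m → [1, L]}` over the enumerations.) -/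
def StmtAV2 : Prop := ∀ m K J : ℕ, ∃ C : ℝ, 1 ≤ C ∧ ∀ L N : ℕ, 1 ≤ L →
  ∑ h ∈ Icc 1 N, ∑ D ∈ (DD m L).filter (fun D => ND D h), WW K (EE D h) ^ J
    ≤ C * ((N : ℝ) + L) * (L : ℝ) ^ m

/-- PACKET MOM (moments; may assume SV2, AV2; 0.7 h).
Proof.  SV2 with `k = 2m + 2` (`ND D h` and `#D = m` give `#(EE D h) = 2m + 2`):
`UU ≤ C (x/(log x)^(2m+2)) ∑_{D, ND} WW (4m+4) (EE D h)`; power mean
`(∑_D w_D)^J ≤ (#DD)^(J-1) ∑_D w_D^J` for `J ≥ 1` (`inner_le_..`, `Finset.inner_mul_le..`;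
`inv_pow_sum..`: Mathlib `inner_pow_le`/`Finset.pow_sum_div_card_le_sum_pow`, namely
`(∑ i ∈ s, f i) ^ (n + 1) / s.card ^ n ≤ ∑ i ∈ s, f i ^ (n + 1)` = `inner_le..`: `pow_sum_div_card_le_sum_pow`),
`#DD ≤ L^m`, and AV2.  `J = 0`: the left side is `N`. -/
def StmtMOM : Prop := ∀ m J : ℕ, ∃ C : ℝ, 1 ≤ C ∧ ∃ x0 : ℕ, ∀ x L N : ℕ, x0 ≤ x → 1 ≤ L →
  ∑ h ∈ Icc 1 N, UU m x L h ^ J ≤ C * ((N : ℝ) + L) * gs m x L ^ J

/-! ## Part III: strings -/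

/-- PACKET GD (1.2 h).
Proof.  Let `n ≤ x`, `D ∈ DD m L` with `PD` at `n` and at `n + h`.  Then `n + d ∈ T h`, `n + d ≡ a (q)` for
`d ∈ D ∪ {0}`.  Case 1: all `t ∈ [n, n + L]` in `T h` are of the form `n + d`, `d ∈ D ∪ {0}`.  Then
`D = {t - n : t ∈ T h, n < t ≤ n + L}` is determined by `n`, and `Str m q R a h n` (`y = n + L`).  So these
pairs are at most `NS`.  Case 2: there is `j ∈ [1, L]`, `j ∉ D`, with `n + j ∈ T h`; then all `n + e`,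
`e ∈ EE (insert j D) h`, are primes, `insert j D ∈ DD (m+1) L`, and `ND (insert j D) h` because `h > L`.  Each
`D' ∈ DD (m+1) L` is `insert j D` for `m + 1` pairs `(j, D)`, `j ∉ D`.  So these pairs are at most
`(m + 1) UU (m+1) x L h`. -/
def StmtGD : Prop := ∀ (m q x L a h : ℕ) (R : ℝ), L < h → (L : ℝ) ≤ R →
  SS m q x L a h ≤ NS m q R a h x + ((m : ℝ) + 1) * UU (m + 1) x L h

/-- PACKET GU (0.5 h).
Proof.  (i) `ff ff = 1` implies that all `n + e`, `e ∈ EE D h`, are primes; `ND D h` as `h > L`.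
(ii) `DD 0 L = {∅}`, `EE ∅ h = {0, h}`, `ND ∅ h` as `h ≥ 1`: `UU 0 x L h` is the number of the `n ≤ x` in `T h`, and
`Str` implies `T h`.  (iii) `PD` at `n` and `n + h` gives `n ≡ a ≡ n + h (q)` (`d = 0`).  (iv) clear. -/
def StmtGU : Prop := ∀ (m q x L a h : ℕ) (R : ℝ),
  (L < h → SS m q x L a h ≤ UU m x L h) ∧
  (1 ≤ h → UU 0 x L h = (((Icc 1 x).filter (fun p => T h p)).card : ℝ) ∧
    NS m q R a h x ≤ UU 0 x L h) ∧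
  (¬ q ∣ h → SS m q x L a h = 0) ∧ 0 ≤ SS m q x L a h ∧ 0 ≤ UU m x L h ∧ 0 ≤ MM m q x L a

/-- PACKET PR (a product inequality; 0.4 h).
Proof.  Induction on `A`: `max 0 (s_a - u) ≥ s_a - u`, all products `≤ v^k`; or: if some `s_b < u` then
`∏ s_a ≤ u v^(#A-1)`; otherwise all `s_a - u ≥ 0`, induction. -/
def StmtPR : Prop := ∀ (A : Finset ℕ) (s : ℕ → ℝ) (u v : ℝ), 0 ≤ u → (∀ a ∈ A, 0 ≤ s a ∧ s a ≤ v) →
  ∏ a ∈ A, s a - (A.card : ℝ) * (u * v ^ (A.card - 1)) ≤ ∏ a ∈ A, max 0 (s a - u)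

/-- PACKET PZ (Paley-Zygmund with a bad set; 0.6 h).
Proof.  `B = {i ∈ I : X i < (c/4) γ}`: `∑_B X ≤ (c/4) H γ`.  `B' = {i : t i > (4 C/c) τ}`:
`∑_{B'} X ≤ ∑_I X t/((4C/c) τ) ≤ (c/4C) γ ∑_I (X/γ) (t/τ) ≤ (c/8C) γ ∑_I ((X/γ)^2 + (t/τ)^2) ≤ (c/4) H γ`.  So the
sum over the good set is `≥ (c/2) H γ`, and Cauchy-Schwarz: `((c/2) H γ)^2 ≤ #good · C H γ^2`. -/
def StmtPZ : Prop := ∀ (I : Finset ℕ) (X t : ℕ → ℝ) (H γ τ c C : ℝ), 0 < H → 0 < γ → 0 < τ → 0 < c →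
  0 < C → (∀ i ∈ I, 0 ≤ X i ∧ 0 ≤ t i) → (I.card : ℝ) ≤ H → c * (H * γ) ≤ ∑ i ∈ I, X i →
  ∑ i ∈ I, X i ^ 2 ≤ C * (H * γ ^ 2) → ∑ i ∈ I, t i ^ 2 ≤ C * (H * τ ^ 2) →
  c ^ 2 / (4 * C) * H ≤
    ((I.filter (fun i => c / 4 * γ ≤ X i ∧ t i ≤ 4 * C / c * τ)).card : ℝ)

/-! ## Part IV: the conclusion -/

/-- PACKET M1 (the sum over `h > L`; may assume MA, LOW, SM, MOM, GU; 1.2 h).
Proof.  `k = #A ≥ 1`, `g = gs m x L`, `L = ⌊lam log² x⌋`.  `M_a ≥ c1 x L^m/(log x)^(m+1)` (MA; `L ≥ K log x` for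
large `x`; take the minimum of the constants over `a ∈ A`).  LOW:
`2 ∑_{1 ≤ h < H} ∏_a SS ≥ ∏_a M_a · (Y - 1)`, `Y = H ∏_a (M_a/(2 x L^m)) ≥ H (c1/(2 (log x)^(m+1)))^k`, so `Y ≥ 4 + 4 k (m+1)^2` if
`C0` is large.  SM and MOM (`J = k`, `N = L`): `∑_{h ≤ L} ∏ SS ≤ k (m+1)^2 ∏ M_a + 2 C L g^k`.  So
`∑_{L < h < H} ∏ SS ≥ ∏ M_a ((Y - 1)/2 - k (m+1)^2) - 2 C L g^k ≥ (Y/4) ∏ M_a - 2 C L g^k`, and
`(Y/4) ∏ M_a = (H/4) ∏ (M_a^2/(2 x L^m)) ≥ (H/4) (c1^2/2)^k g^k`.  Finally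
`2 C L ≤ 2 C log² x ≤ (H/8) (c1^2/2)^k` because `H ≥ C0 (log x)^((m+1) k) ≥ C0 log² x` (`(m+1) k ≥ 2`) and `C0` is
large.  (`Ico 1 H ⊆ Icc 1 L ∪ Ioo L H`.)  `C0` and `c1` do not depend on `lam`. -/
def StmtM1 : Prop := ∀ (m q : ℕ) (A : Finset ℕ), 1 ≤ m → 1 ≤ q → A.Nonempty →
  (∀ a ∈ A, Nat.Coprime a q) → ∃ C0 c1 : ℝ, 1 ≤ C0 ∧ 0 < c1 ∧ ∀ lam : ℝ, 0 < lam → lam ≤ 1 →
  ∃ x0 : ℕ, ∀ x H : ℕ, x0 ≤ x → C0 * Real.log x ^ ((m + 1) * A.card) ≤ H → H ≤ x →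
  c1 * (H * gs m x ⌊lam * Real.log x ^ 2⌋₊ ^ A.card) ≤
    ∑ h ∈ Ioo ⌊lam * Real.log x ^ 2⌋₊ H, ∏ a ∈ A, SS m q x ⌊lam * Real.log x ^ 2⌋₊ a h

/-- PACKET M2 (the final theorem; may assume M1, MOM, GD, GU, PR, PZ; 1.5 h).
Proof.  `k = #A`, `L = ⌊lam log² x⌋` with `lam ≤ min 1 ε` to be chosen, `g = gs m x L`, `τ = x/log² x = gs 0 x L`,
`Λ = L/log² x` (`lam/2 ≤ Λ ≤ lam` for large `x`), so `g = τ Λ^m` and `gs (m+1) x L = g Λ`.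
`U h = (m+1) UU (m+1) x L h`, `V h = UU m x L h`, `t h = UU 0 x L h`, `Z_a h = max 0 (SS a h - U h)`,
`X h = ∏_a Z_a h`, `I = {h ∈ Ioo L H : q ∣ h}`.  (1) PR and `∏ SS = 0` for `q ∤ h` (GU, `A` nonempty):
`∑_I X ≥ ∑_{Ioo L H} ∏ SS - k ∑_{h ≤ H} U V^(k-1)`.  With `u' = UU (m+1)/(g Λ)`, `v' = V/g`:
`U V^(k-1) = (m+1) Λ g^k u' v'^(k-1) ≤ (m+1) Λ g^k (u'^k + v'^k)`; MOM with `J = k` for `m + 1` and `m` (`N = H`, `L ≤ H`):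
the sum over `h ≤ H` is `≤ 4 C (m+1) Λ H g^k`.  With M1 and `lam` small: `∑_I X ≥ (c1/2) H g^k`.
(2) `0 ≤ X ≤ V^k` (GU: `SS ≤ V` for `h > L`), so `∑ X^2 ≤ ∑ V^(2k) ≤ 2 C H g^(2k)` (MOM, `J = 2k`);
`∑ t^2 ≤ 2 C H τ^2` (MOM, `m = 0`, `J = 2`).  (3) PZ with `γ = g^k`: for at least `c2 H` of the `h ∈ I`:
`X h ≥ c3 g^k` and `t h ≤ K τ`.  For these `h` and `a ∈ A`: `Z_b ≤ NS_b ≤ t h ≤ K τ` (GD, GU; `L ≤ ε log² x`), so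
`NS_a ≥ Z_a ≥ X/(K τ)^(k-1) ≥ c3 g^k/(K τ)^(k-1) = c3 Λ^(m k) K^(-(k-1)) τ ≥ c4 τ`, and `t h ≤ K τ ≤ (K/c4) NS_a`.
`c = min (c2, c4, c4/K)`. -/
def StmtFIN : Prop := ∀ (m q : ℕ) (A : Finset ℕ), 1 ≤ m → 1 ≤ q → A.Nonempty →
  (∀ a ∈ A, Nat.Coprime a q) → ∃ C : ℝ, ∀ ε : ℝ, 0 < ε → ∃ c : ℝ, 0 < c ∧ ∃ x0 : ℕ,
  ∀ x H : ℕ, x0 ≤ x → C * Real.log x ^ ((m + 1) * A.card) ≤ H → H ≤ x →
  c * H ≤ (((Icc 1 H).filter (fun h => q ∣ h ∧ ∀ a ∈ A,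
    c * (x / Real.log x ^ 2) ≤ NS m q (ε * Real.log x ^ 2) a h x ∧
    c * (((Icc 1 x).filter (fun p => T h p)).card : ℝ)
      ≤ NS m q (ε * Real.log x ^ 2) a h x)).card : ℝ)

end Pool.Agent.Helper41.PS
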