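import Pool.Agent.Helper34.PS.LOW
import Pool.Agent.Helper24.PS.SM
import Pool.Agent.Helper22.PS.AV1
import Pool.Agent.Helper76.PS.MOM
import Pool.Agent.Helper10.PS.GD
import Pool.Agent.Helper90.PS.GU
import Pool.Agent.Helper69.PS.PR
import Pool.Agent.Helper50.PS.M1
import Pool.Agent.Helper51.PS.M2
import Pool.Agent.Helper12.PS.PNT
import Pool.Agent.Helper78.PS.MA
import Pool.Agent.Helper44.PS.VDC
import Pool.Agent.Helper63.PS.SV1
import Pool.Agent.Helper36.PS.SV2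
import Pool.Agent.Helper48.PS.AV2
import Pool.Agent.Helper77.PS.PZ

/-! # Strings of prime pairs `(p, p + h)`: assembly -/

set_option autoImplicit false

namespace Pool.Agent.Helper41.PS

theorem mMA : StmtMA := Pool.Agent.Helper78.PS.MA.t Pool.Agent.Helper12.PS.PNT.t
theorem mLOW : StmtLOW := Pool.Agent.Helper34.PS.LOW.t Pool.Agent.Helper44.PS.VDC.t
theorem mSM : StmtSM := Pool.Agent.Helper24.PS.SM.t
theorem mSV2 : StmtSV2 := Pool.Agent.Helper36.PS.SV2.t Pool.Agent.Helper63.PS.SV1.t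
theorem mAV2 : StmtAV2 := Pool.Agent.Helper48.PS.AV2.t Pool.Agent.Helper22.PS.AV1.t
theorem mMOM : StmtMOM := Pool.Agent.Helper76.PS.MOM.t mSV2 mAV2
theorem mGD : StmtGD := Pool.Agent.Helper10.PS.GD.t
theorem mGU : StmtGU := Pool.Agent.Helper90.PS.GU.t
theorem mPR : StmtPR := Pool.Agent.Helper69.PS.PR.t
theorem mPZ : StmtPZ := Pool.Agent.Helper77.PS.PZ.t
theorem mM1 : StmtM1 := Pool.Agent.Helper50.PS.M1.t mMA mLOW mSM mMOM mGU

/-- the main theorem -/
theorem mFIN : StmtFIN := Pool.Agent.Helper51.PS.M2.t mM1 mMOM mGD mGU mPR mPZ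

end Pool.Agent.Helper41.PS
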